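import Pool.Agent.H37.PT2.Defs

/-! # Module COT: the space has cotype `q` with constant `2` -/

set_option autoImplicit false

open Finset

namespace Pool.PT2

theorem COT_avg_mono {α : Type} [Fintype α] {f g : α → ℝ} (h : ∀ a, f a ≤ g a) :
    avg f ≤ avg g := by
  unfold avg
  exact div_le_div_of_nonneg_right (Finset.sum_le_sum fun a _ => h a) (Nat.cast_nonneg _)

theorem COT_avg_sum {α : Type} [Fintype α] {ι : Type} (s : Finset ι) (f : ι → α → ℝ) :
    avg (fun a => ∑ i ∈ s, f i a) = ∑ i ∈ s, avg (f i) := by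
  unfold avg
  rw [Finset.sum_comm, Finset.sum_div]

theorem COT_avg_sq {α : Type} [Fintype α] (f : α → ℝ) :
    avg f ^ 2 ≤ avg (fun a => f a ^ 2) := by
  unfold avg
  rcases Nat.eq_zero_or_pos (Fintype.card α) with h0 | h0
  · rw [h0]
    simp
  · have hc : (0 : ℝ) < Fintype.card α := by exact_mod_cast h0
    rw [div_pow, div_le_div_iff₀ (by positivity) hc]
    have h1 := sq_sum_le_card_mul_sum_sq (s := (Finset.univ : Finset α)) (f := f)
    rw [Finset.card_univ] at h1
    have h2 : 0 ≤ ∑ a, f a ^ 2 := by positivity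
    calc (∑ a, f a) ^ 2 * (Fintype.card α : ℝ) ≤
        ((Fintype.card α : ℝ) * ∑ a, f a ^ 2) * (Fintype.card α : ℝ) :=
          mul_le_mul_of_nonneg_right h1 hc.le
      _ = (∑ a, f a ^ 2) * (Fintype.card α : ℝ) ^ 2 := by ring

theorem COT_lq_mono {q : ℝ} (hq : 0 < q) {k : ℕ} {y z : Fin k → ℝ}
    (h : ∀ j, |y j| ≤ |z j|) : lq q y ≤ lq q z := by
  unfold lq
  refine Real.rpow_le_rpow (Finset.sum_nonneg fun j _ => Real.rpow_nonneg (abs_nonneg _) _) ?_
    (by positivity)
  exact Finset.sum_le_sum fun j _ => Real.rpow_le_rpow (abs_nonneg _) (h j) hq.le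

theorem COT_lq_pow {q : ℝ} (hq : 0 < q) {k : ℕ} (y : Fin k → ℝ) :
    lq q y ^ q = ∑ j, |y j| ^ q := by
  unfold lq
  rw [← Real.rpow_mul (Finset.sum_nonneg fun j _ => Real.rpow_nonneg (abs_nonneg _) _),
    one_div, inv_mul_cancel₀ hq.ne', Real.rpow_one]

theorem COT_lq_smul {q : ℝ} (hq : 0 < q) {k : ℕ} (c : ℝ) (hc : 0 ≤ c) (y : Fin k → ℝ) :
    lq q (fun j => c * y j) = c * lq q y := by
  unfold lq
  have h1 : ∀ j ∈ (Finset.univ : Finset (Fin k)), |c * y j| ^ q = c ^ q * |y j| ^ q := by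
    intro j _
    rw [abs_mul, abs_of_nonneg hc, Real.mul_rpow hc (abs_nonneg _)]
  rw [Finset.sum_congr rfl h1, ← Finset.mul_sum, Real.mul_rpow (Real.rpow_nonneg hc _)
    (Finset.sum_nonneg fun j _ => Real.rpow_nonneg (abs_nonneg _) _), ← Real.rpow_mul hc,
    mul_one_div, div_self hq.ne', Real.rpow_one]

theorem sCot (hKHI : SKhi) (hMNK : SMnk) (hNRM : SNrm) : SCot := by
  intro q hq m k l x
  have hq0 : 0 < q := by linarith
  -- first step
  have h1 : avg (fun ε : Fin l → Bool => Nq q (∑ i, sg (ε i) • x i)) ≤ √(rad2 (Nq q) x) := by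
    apply Real.le_sqrt_of_sq_le
    exact COT_avg_sq _
  -- second step
  have h2 : avg (fun ε : Fin l → Bool => Nq q (∑ i, sg (ε i) • x i)) =
      ∑ a, avg (fun ε : Fin l → Bool => lq q (fun j => ∑ i, sg (ε i) * x i (a, j))) := by
    rw [← COT_avg_sum]
    congr 1
    funext ε
    unfold Nq
    refine Finset.sum_congr rfl fun a _ => ?_
    congr 1
    funext j
    rw [Finset.sum_apply]
    rfl
  -- third step
  have h3 : ∀ a : Fin m, 1 / 2 * lq q (fun j => lq q (fun i => x i (a, j))) ≤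
      avg (fun ε : Fin l → Bool => lq q (fun j => ∑ i, sg (ε i) * x i (a, j))) := by
    intro a
    refine le_trans ?_ ((hMNK q (by linarith) k l).1 (Fin l → Bool)
      (fun ε j => ∑ i, sg (ε i) * x i (a, j)))
    rw [← COT_lq_smul hq0 (1 / 2) (by norm_num)]
    apply COT_lq_mono hq0
    intro j
    have h4 := (hNRM q hq m l).2.2.2 (fun i => x i (a, j))
    have h5 : lq q (fun i => x i (a, j)) ≤ √(∑ i, x i (a, j) ^ 2) :=
      Real.le_sqrt_of_sq_le h4.2
    have h6 := hKHI l (fun i => x i (a, j))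
    have h7 : 0 ≤ avg (fun ε : Fin l → Bool => |∑ i, sg (ε i) * x i (a, j)|) := by
      refine le_trans ?_ h6
      positivity
    rw [abs_of_nonneg (mul_nonneg (by norm_num) h4.1), abs_of_nonneg h7]
    linarith
  -- fourth step
  have h8 : ∀ a : Fin m, lq q (fun j => lq q (fun i => x i (a, j))) =
      (∑ i, lq q (fun j => x i (a, j)) ^ q) ^ (1 / q) := by
    intro a
    conv_lhs => unfold lq
    congr 1
    have h9 : ∀ j ∈ (Finset.univ : Finset (Fin k)),
        |(∑ i, |x i (a, j)| ^ q) ^ (1 / q)| ^ q = ∑ i, |x i (a, j)| ^ q := by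
      intro j _
      have h10 := (hNRM q hq m l).2.2.2 (fun i => x i (a, j))
      have h11 : (∑ i, |x i (a, j)| ^ q) ^ (1 / q) = lq q (fun i => x i (a, j)) := rfl
      rw [h11, abs_of_nonneg h10.1, COT_lq_pow hq0]
    rw [Finset.sum_congr rfl h9, Finset.sum_comm]
    refine Finset.sum_congr rfl fun i _ => ?_
    rw [COT_lq_pow hq0]
  -- last step
  have h12 := (hMNK q (by linarith) k l).2 m (fun a i => lq q (fun j => x i (a, j)))
    (fun a i => ((hNRM q hq m k).2.2.2 (fun j => x i (a, j))).1)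
  have h13 : (∑ i, Nq q (x i) ^ q) ^ (1 / q) ≤
      ∑ a, lq q (fun j => lq q (fun i => x i (a, j))) := by
    refine le_trans (le_of_eq ?_) (h12.trans (le_of_eq ?_))
    · rfl
    · exact Finset.sum_congr rfl fun a _ => (h8 a).symm
  have h14 : 1 / 2 * ∑ a, lq q (fun j => lq q (fun i => x i (a, j))) ≤ √(rad2 (Nq q) x) := by
    refine le_trans ?_ h1
    rw [h2, Finset.mul_sum]
    exact Finset.sum_le_sum fun a _ => h3 a
  linarith

end Pool.PT2
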