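import Pool.Agent.H37.PT2.Defs

/-! # Module MM4: the fourth moment -/

set_option autoImplicit false

open Finset

namespace Pool.PT2

theorem MM4_avg_equiv {α β : Type} [Fintype α] [Fintype β] (e : α ≃ β) (f : β → ℝ) :
    avg (fun a => f (e a)) = avg f := by
  unfold avg
  rw [Fintype.card_congr e]
  congr 1
  exact e.sum_comp f

theorem MM4_avg_add {α : Type} [Fintype α] (f g : α → ℝ) :
    avg (fun a => f a + g a) = avg f + avg g := by
  unfold avg
  rw [Finset.sum_add_distrib, add_div]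

theorem MM4_avg_mul {α : Type} [Fintype α] (c : ℝ) (f : α → ℝ) :
    avg (fun a => c * f a) = c * avg f := by
  unfold avg
  rw [← Finset.mul_sum, mul_div_assoc]

theorem MM4_indep {α : Type} [Fintype α] [Nonempty α] (m : ℕ) (b : Fin m)
    (F : (Fin m → α) → ℝ) (hF : ∀ f x, F (Function.update f b x) = F f) (G : α → ℝ) :
    avg (fun f : Fin m → α => F f * G (f b)) = avg F * avg G := by
  let e : ((Fin m → α) × α) ≃ ((Fin m → α) × α) :=
    { toFun := fun p => (Function.update p.1 b p.2, p.1 b)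
      invFun := fun p => (Function.update p.1 b p.2, p.1 b)
      left_inv := fun p => by
        simp
      right_inv := fun p => by
        simp }
  have h1 : ∑ p : (Fin m → α) × α, F p.1 * G (p.1 b) =
      ∑ p : (Fin m → α) × α, F p.1 * G p.2 := by
    rw [← e.sum_comp (fun p : (Fin m → α) × α => F p.1 * G (p.1 b))]
    refine Finset.sum_congr rfl fun p _ => ?_
    show F (Function.update p.1 b p.2) * G (Function.update p.1 b p.2 b) = _
    rw [hF, Function.update_self]
  rw [Fintype.sum_prod_type, Fintype.sum_prod_type] at h1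
  simp only [Finset.sum_const, Finset.card_univ, nsmul_eq_mul, ← Finset.mul_sum] at h1
  rw [← Finset.sum_mul] at h1
  unfold avg
  have hc : (Fintype.card α : ℝ) ≠ 0 := by
    exact_mod_cast Fintype.card_ne_zero
  have hc2 : (Fintype.card (Fin m → α) : ℝ) ≠ 0 := by
    exact_mod_cast Fintype.card_ne_zero
  field_simp
  linarith

theorem MM4_moments {α : Type} [Fintype α] [Nonempty α] (m : ℕ) (Z : Fin m → α → ℝ)
    (h1 : ∀ a, avg (Z a) = 0) (h3 : ∀ a, avg (fun x => Z a x ^ 3) = 0) (S : Finset (Fin m)) :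
    avg (fun f : Fin m → α => ∑ a ∈ S, Z a (f a)) = 0 ∧
    avg (fun f : Fin m → α => (∑ a ∈ S, Z a (f a)) ^ 2) = ∑ a ∈ S, avg (fun x => Z a x ^ 2) ∧
    avg (fun f : Fin m → α => (∑ a ∈ S, Z a (f a)) ^ 4) ≤
      ∑ a ∈ S, avg (fun x => Z a x ^ 4) + 3 * (∑ a ∈ S, avg (fun x => Z a x ^ 2)) ^ 2 := by
  have hone : ∀ c : ℝ, avg (fun _ : Fin m → α => c) = c := by
    intro c
    unfold avg
    rw [Finset.sum_const, Finset.card_univ, nsmul_eq_mul]
    have hc2 : (Fintype.card (Fin m → α) : ℝ) ≠ 0 := by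
      exact_mod_cast Fintype.card_ne_zero
    field_simp
  induction S using Finset.induction_on with
  | empty =>
    refine ⟨?_, ?_, ?_⟩
    · simp only [Finset.sum_empty]
      exact hone 0
    · simp only [Finset.sum_empty]
      rw [hone]
      norm_num
    · simp only [Finset.sum_empty]
      rw [hone]
      norm_num
  | insert b S hb ih =>
    obtain ⟨i1, i2, i4⟩ := ih
    let U : (Fin m → α) → ℝ := fun f => ∑ a ∈ S, Z a (f a)
    have hU : ∀ f x, U (Function.update f b x) = U f := by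
      intro f x
      refine Finset.sum_congr rfl fun a ha => ?_
      rw [Function.update_of_ne]
      rintro rfl
      exact hb ha
    have hS : ∀ f : Fin m → α, ∑ a ∈ insert b S, Z a (f a) = Z b (f b) + U f := fun f =>
      Finset.sum_insert hb
    -- mixed moments
    have hX : ∀ G : α → ℝ, avg (fun f : Fin m → α => G (f b)) = avg G := by
      intro G
      have h := MM4_indep m b (fun _ => 1) (fun _ _ => rfl) G
      rw [hone, one_mul] at h
      simpa using h
    have e1 : avg (fun f : Fin m → α => U f * Z b (f b)) = 0 := by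
      rw [MM4_indep m b U hU (Z b), h1, mul_zero]
    have e2 : avg (fun f : Fin m → α => U f ^ 3 * Z b (f b)) = 0 := by
      rw [MM4_indep m b (fun f => U f ^ 3) (fun f x => by rw [hU]) (Z b), h1, mul_zero]
    have e3 : avg (fun f : Fin m → α => U f * Z b (f b) ^ 3) = 0 := by
      rw [MM4_indep m b U hU (fun x => Z b x ^ 3), h3, mul_zero]
    have e4 : avg (fun f : Fin m → α => U f ^ 2 * Z b (f b) ^ 2) =
        avg (fun f => U f ^ 2) * avg (fun x => Z b x ^ 2) :=
      MM4_indep m b (fun f => U f ^ 2) (fun f x => by rw [hU]) (fun x => Z b x ^ 2)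
    have i2' : avg (fun f => U f ^ 2) = ∑ a ∈ S, avg (fun x => Z a x ^ 2) := i2
    have i4' : avg (fun f => U f ^ 4) ≤
      ∑ a ∈ S, avg (fun x => Z a x ^ 4) + 3 * (∑ a ∈ S, avg (fun x => Z a x ^ 2)) ^ 2 := i4
    have i1' : avg U = 0 := i1
    simp only [hS]
    refine ⟨?_, ?_, ?_⟩
    · rw [MM4_avg_add, hX, h1, i1', add_zero]
    · have hexp : (fun f : Fin m → α => (Z b (f b) + U f) ^ 2) =
          fun f => Z b (f b) ^ 2 + (2 * (U f * Z b (f b)) + U f ^ 2) := by
        funext f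
        ring
      rw [hexp, MM4_avg_add, MM4_avg_add, MM4_avg_mul, e1, hX (fun x => Z b x ^ 2), i2',
        Finset.sum_insert hb]
      ring
    · have hexp : (fun f : Fin m → α => (Z b (f b) + U f) ^ 4) =
          fun f => Z b (f b) ^ 4 + (4 * (U f * Z b (f b) ^ 3) + (6 * (U f ^ 2 * Z b (f b) ^ 2) +
            (4 * (U f ^ 3 * Z b (f b)) + U f ^ 4))) := by
        funext f
        ring
      rw [hexp, MM4_avg_add, MM4_avg_add, MM4_avg_add, MM4_avg_add, MM4_avg_mul, MM4_avg_mul,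
        MM4_avg_mul, e2, e3, e4, hX (fun x => Z b x ^ 4), i2', Finset.sum_insert hb,
        Finset.sum_insert hb]
      have hsq : 0 ≤ avg (fun x => Z b x ^ 2) := by
        unfold avg
        positivity
      nlinarith [i4', sq_nonneg (avg (fun x => Z b x ^ 2))]

theorem sMm4 : SMm4 := by
  intro m k N hk hN Q i t c hc hsum
  have hne1 : Nonempty (Fin k) := ⟨⟨0, hk⟩⟩
  have hne2 : Nonempty (Fin N) := ⟨⟨0, hN⟩⟩
  let α : Type := Fin k × Fin N × Bool
  let Z : Fin m → α → ℝ := fun a x => if x.2.1 = i then sg x.2.2 * Q t (a, x.1) else 0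
  let e : (Fin m → α) ≃ (Fin m → Fin k) × (Fin m → Fin N) × (Fin m → Bool) :=
    { toFun := fun f => (fun a => (f a).1, fun a => (f a).2.1, fun a => (f a).2.2)
      invFun := fun p a => (p.1 a, p.2.1 a, p.2.2 a)
      left_inv := fun f => rfl
      right_inv := fun p => rfl }
  have hcard : (Fintype.card α : ℝ) = 2 * (N * k) := by
    simp only [α, Fintype.card_prod, Fintype.card_fin, Fintype.card_bool]
    push_cast
    ring
  have hk0 : (0 : ℝ) < k := by exact_mod_cast hk
  have hN0 : (0 : ℝ) < N := by exact_mod_cast hN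
  -- moments of one variable
  have hsumZ : ∀ (a : Fin m) (φ : ℝ → ℝ), φ 0 = 0 →
      ∑ x : α, φ (Z a x) = ∑ j, (φ (Q t (a, j)) + φ (-Q t (a, j))) := by
    intro a φ h0
    rw [Fintype.sum_prod_type]
    refine Finset.sum_congr rfl fun j _ => ?_
    rw [Fintype.sum_prod_type]
    rw [Finset.sum_eq_single i]
    · rw [Fintype.sum_bool]
      simp [Z, sg]
    · intro n _ hn
      simp [Z, hn, h0]
    · intro h
      exact absurd (Finset.mem_univ i) h
  have hm1 : ∀ a, avg (Z a) = 0 := by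
    intro a
    unfold avg
    have h := hsumZ a (fun y => y) rfl
    rw [h]
    simp
  have hm3 : ∀ a, avg (fun x => Z a x ^ 3) = 0 := by
    intro a
    unfold avg
    rw [hsumZ a (fun y => y ^ 3) (by norm_num)]
    have : ∀ j ∈ (Finset.univ : Finset (Fin k)),
        (Q t (a, j) ^ 3 + (-Q t (a, j)) ^ 3) = 0 := fun j _ => by ring
    rw [Finset.sum_congr rfl this]
    simp
  have hm2 : ∀ a, avg (fun x => Z a x ^ 2) = (∑ j, Q t (a, j) ^ 2) / (N * k) := by
    intro a
    unfold avg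
    rw [hsumZ a (fun y => y ^ 2) (by norm_num), hcard]
    have : ∀ j ∈ (Finset.univ : Finset (Fin k)),
        (Q t (a, j) ^ 2 + (-Q t (a, j)) ^ 2) = 2 * Q t (a, j) ^ 2 := fun j _ => by ring
    rw [Finset.sum_congr rfl this, ← Finset.mul_sum]
    field_simp
  have hm4 : ∀ a, avg (fun x => Z a x ^ 4) ≤ c * ((∑ j, Q t (a, j) ^ 2) / (N * k)) := by
    intro a
    unfold avg
    rw [hsumZ a (fun y => y ^ 4) (by norm_num), hcard]
    have : ∀ j ∈ (Finset.univ : Finset (Fin k)),
        (Q t (a, j) ^ 4 + (-Q t (a, j)) ^ 4) = 2 * Q t (a, j) ^ 4 := fun j _ => by ring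
    rw [Finset.sum_congr rfl this, ← Finset.mul_sum]
    have h5 : ∑ j, Q t (a, j) ^ 4 ≤ c * ∑ j, Q t (a, j) ^ 2 := by
      rw [Finset.mul_sum]
      refine Finset.sum_le_sum fun j _ => ?_
      have := mul_le_mul_of_nonneg_right (hc (a, j)) (sq_nonneg (Q t (a, j)))
      calc Q t (a, j) ^ 4 = Q t (a, j) ^ 2 * Q t (a, j) ^ 2 := by ring
        _ ≤ _ := this
    rw [show (2 * ∑ j, Q t (a, j) ^ 4) / (2 * ((N : ℝ) * k)) = (∑ j, Q t (a, j) ^ 4) / (N * k) by
      field_simp, ← mul_div_assoc]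
    exact div_le_div_of_nonneg_right h5 (by positivity)
  have hc0 : 0 ≤ c := (sq_nonneg _).trans (hc t)
  -- the fourth moment
  have hfun : avg (fun p => cs Q i p t ^ 4) =
      avg (fun f : Fin m → α => (∑ a ∈ (Finset.univ : Finset (Fin m)), Z a (f a)) ^ 4) :=
    (MM4_avg_equiv e (fun p => cs Q i p t ^ 4)).symm
  have hmain := (MM4_moments m Z hm1 hm3 Finset.univ).2.2
  rw [hfun]
  refine hmain.trans ?_
  have htot : ∑ a, ∑ j, Q t (a, j) ^ 2 = ∑ s, Q t s ^ 2 := by
    rw [Fintype.sum_prod_type]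
  have hs2 : ∑ a, avg (fun x => Z a x ^ 2) = (∑ s, Q t s ^ 2) / (N * k) := by
    rw [Finset.sum_congr rfl fun a _ => hm2 a, ← Finset.sum_div, htot]
  have hs4 : ∑ a, avg (fun x => Z a x ^ 4) ≤ c * ((∑ s, Q t s ^ 2) / (N * k)) := by
    refine (Finset.sum_le_sum fun a _ => hm4 a).trans ?_
    rw [← Finset.mul_sum, ← Finset.sum_div, htot]
  have hNk : (0 : ℝ) < N * k := by positivity
  have hS0 : 0 ≤ ∑ s, Q t s ^ 2 := by positivity
  have hS1 : (∑ s, Q t s ^ 2) / (N * k) ≤ 1 / (N * k) :=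
    div_le_div_of_nonneg_right hsum hNk.le
  have hS2 : 0 ≤ (∑ s, Q t s ^ 2) / (N * k) := by positivity
  have h6 : 3 * (∑ a, avg (fun x => Z a x ^ 2)) ^ 2 ≤ 3 / (N * k) ^ 2 := by
    rw [hs2]
    have h7 : ((∑ s, Q t s ^ 2) / (N * k)) ^ 2 ≤ (1 / ((N : ℝ) * k)) ^ 2 :=
      pow_le_pow_left₀ hS2 hS1 2
    have h9 : 3 * (1 / ((N : ℝ) * k)) ^ 2 = 3 / ((N : ℝ) * k) ^ 2 := by
      rw [one_div, inv_pow, div_eq_mul_inv]
    rw [← h9]
    linarith
  have h8 : c * ((∑ s, Q t s ^ 2) / (N * k)) ≤ c / (N * k) := by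
    have h9 : c * (1 / ((N : ℝ) * k)) = c / (N * k) := by ring
    rw [← h9]
    exact mul_le_mul_of_nonneg_left hS1 hc0
  linarith

end Pool.PT2
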