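import Pool.Agent.H33.PT2.MM4

/-! # Module UPL: the large part -/

set_option autoImplicit false

open Finset

namespace Pool.PT2

theorem UPL_avg_prod {α β : Type} [Fintype α] [Fintype β] (F : α × β → ℝ) :
    avg F = avg (fun a => avg (fun b => F (a, b))) := by
  unfold avg
  rw [Fintype.sum_prod_type, Fintype.card_prod, ← Finset.sum_div, div_div]
  push_cast
  rw [mul_comm (Fintype.card α : ℝ)]

theorem UPL_avg_const {α : Type} [Fintype α] [Nonempty α] (c : ℝ) :
    avg (fun _ : α => c) = c := by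
  unfold avg
  rw [Finset.sum_const, Finset.card_univ, nsmul_eq_mul]
  have hc2 : (Fintype.card α : ℝ) ≠ 0 := by
    exact_mod_cast Fintype.card_ne_zero
  field_simp

theorem UPL_avg_mono {α : Type} [Fintype α] {f g : α → ℝ} (h : ∀ a, f a ≤ g a) :
    avg f ≤ avg g := by
  unfold avg
  exact div_le_div_of_nonneg_right (Finset.sum_le_sum fun a _ => h a) (Nat.cast_nonneg _)

theorem UPL_moments {α : Type} [Fintype α] [Nonempty α] (m : ℕ) (Z : Fin m → α → ℝ)
    (h1 : ∀ a, avg (Z a) = 0) (S : Finset (Fin m)) :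
    avg (fun f : Fin m → α => ∑ a ∈ S, Z a (f a)) = 0 ∧
    avg (fun f : Fin m → α => (∑ a ∈ S, Z a (f a)) ^ 2) = ∑ a ∈ S, avg (fun x => Z a x ^ 2) := by
  induction S using Finset.induction_on with
  | empty =>
    refine ⟨?_, ?_⟩
    · simp only [Finset.sum_empty]
      exact UPL_avg_const 0
    · simp only [Finset.sum_empty]
      rw [UPL_avg_const]
      norm_num
  | insert b S hb ih =>
    obtain ⟨i1, i2⟩ := ih
    let U : (Fin m → α) → ℝ := fun f => ∑ a ∈ S, Z a (f a)
    have hU : ∀ f x, U (Function.update f b x) = U f := by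
      intro f x
      refine Finset.sum_congr rfl fun a ha => ?_
      rw [Function.update_of_ne]
      rintro rfl
      exact hb ha
    have hS : ∀ f : Fin m → α, ∑ a ∈ insert b S, Z a (f a) = Z b (f b) + U f := fun f =>
      Finset.sum_insert hb
    have hX : ∀ G : α → ℝ, avg (fun f : Fin m → α => G (f b)) = avg G := by
      intro G
      have h := MM4_indep m b (fun _ => 1) (fun _ _ => rfl) G
      rw [UPL_avg_const, one_mul] at h
      simpa using h
    have e1 : avg (fun f : Fin m → α => U f * Z b (f b)) = 0 := by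
      rw [MM4_indep m b U hU (Z b), h1, mul_zero]
    have i2' : avg (fun f => U f ^ 2) = ∑ a ∈ S, avg (fun x => Z a x ^ 2) := i2
    have i1' : avg U = 0 := i1
    simp only [hS]
    refine ⟨?_, ?_⟩
    · rw [MM4_avg_add, hX, h1, i1', add_zero]
    · have hexp : (fun f : Fin m → α => (Z b (f b) + U f) ^ 2) =
          fun f => Z b (f b) ^ 2 + (2 * (U f * Z b (f b)) + U f ^ 2) := by
        funext f
        ring
      rw [hexp, MM4_avg_add, MM4_avg_add, MM4_avg_mul, e1, hX (fun x => Z b x ^ 2), i2',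
        Finset.sum_insert hb]
      ring

/-- the second moment of the size of a colour class -/
theorem UPL_card (m N : ℕ) (hN : 1 ≤ N) (hm : N ≤ m) (i : Fin N) :
    avg (fun χ : Fin m → Fin N => (∑ a, if χ a = i then (1 : ℝ) else 0) ^ 2) ≤
      2 * (m : ℝ) ^ 2 / (N : ℝ) ^ 2 := by
  have hne : Nonempty (Fin N) := ⟨i⟩
  have hN0 : (0 : ℝ) < N := by exact_mod_cast hN
  have hmN : (N : ℝ) ≤ m := by exact_mod_cast hm
  let Z : Fin m → Fin N → ℝ := fun _ x => (if x = i then 1 else 0) - 1 / N
  have h1 : ∀ a, avg (Z a) = 0 := by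
    intro a
    unfold avg
    simp only [Z]
    rw [Finset.sum_sub_distrib, Finset.sum_ite_eq' Finset.univ i, if_pos (Finset.mem_univ i),
      Finset.sum_const, Finset.card_univ, Fintype.card_fin, nsmul_eq_mul]
    field_simp
    ring
  have h2 : ∀ a, avg (fun x => Z a x ^ 2) ≤ 1 / N := by
    intro a
    have h3 : ∀ x : Fin N, Z a x ^ 2 = (1 - 2 / N) * (if x = i then 1 else 0) + 1 / N ^ 2 := by
      intro x
      simp only [Z]
      split_ifs
      · field_simp
        ring
      · field_simp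
        ring
    unfold avg
    simp only [h3]
    rw [Finset.sum_add_distrib, ← Finset.mul_sum, Finset.sum_ite_eq' Finset.univ i,
      if_pos (Finset.mem_univ i), Finset.sum_const, Finset.card_univ, Fintype.card_fin,
      nsmul_eq_mul]
    apply div_le_div_of_nonneg_right _ hN0.le
    have h4 : (N : ℝ) * (1 / N ^ 2) = 1 / N := by
      field_simp
    rw [h4]
    have h5 : (0 : ℝ) < 1 / N := by positivity
    have h6 : (2 : ℝ) / N = 2 * (1 / N) := by ring
    rw [h6]
    linarith
  have h3 := UPL_moments m Z h1 Finset.univ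
  have h4 : ∀ χ : Fin m → Fin N, (∑ a, if χ a = i then (1 : ℝ) else 0) =
      (∑ a, Z a (χ a)) + m / N := by
    intro χ
    simp only [Z]
    rw [Finset.sum_sub_distrib, Finset.sum_const, Finset.card_univ, Fintype.card_fin,
      nsmul_eq_mul]
    ring
  have h5 : (fun χ : Fin m → Fin N => (∑ a, if χ a = i then (1 : ℝ) else 0) ^ 2) =
      fun χ => (∑ a, Z a (χ a)) ^ 2 + ((2 * (m / N)) * (∑ a, Z a (χ a)) + (m / N) ^ 2) := by
    funext χ
    rw [h4]
    ring
  rw [h5, MM4_avg_add, MM4_avg_add, MM4_avg_mul, h3.1, h3.2, UPL_avg_const, mul_zero, zero_add]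
  have h6 : ∑ a, avg (fun x => Z a x ^ 2) ≤ m * (1 / N) := by
    refine (Finset.sum_le_sum fun a _ => h2 a).trans ?_
    rw [Finset.sum_const, Finset.card_univ, Fintype.card_fin, nsmul_eq_mul]
  have h7 : (m : ℝ) * (1 / N) ≤ (m / N) ^ 2 := by
    rw [mul_one_div, sq]
    have h8 : (1 : ℝ) ≤ m / N := by
      rw [le_div_iff₀ hN0, one_mul]
      exact hmN
    nlinarith
  have h9 : 2 * (m : ℝ) ^ 2 / (N : ℝ) ^ 2 = 2 * (m / N) ^ 2 := by
    rw [div_pow]
    ring
  rw [h9]
  linarith

theorem sUpl (hNRM : SNrm) : SUpl := by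
  intro q hq m k N hk hN hNm Q i β hβ hQ hsum
  have hne1 : Nonempty (Fin k) := ⟨⟨0, hk⟩⟩
  have hN0 : (0 : ℝ) < N := by exact_mod_cast hN
  -- a column
  have hcol : ∀ s, ∑ t, |Q t s| ≤ √N / β := by
    intro s
    have h1 : ∀ t, |Q t s| ≤ √N / β * Q t s ^ 2 := by
      intro t
      rcases hQ t s with h | h
      · rw [h]
        simp
      · have h2 : β / √N ≤ |Q t s| := by
          rw [← Real.sqrt_sq_eq_abs]
          apply Real.le_sqrt_of_sq_le
          rw [div_pow, Real.sq_sqrt hN0.le]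
          exact h
        have h3 : 0 < √(N : ℝ) := Real.sqrt_pos.2 hN0
        have h4 : √N / β * Q t s ^ 2 = (√N / β * |Q t s|) * |Q t s| := by
          rw [← sq_abs]
          ring
        rw [h4]
        have h5 : 1 ≤ √N / β * |Q t s| := by
          calc (1 : ℝ) = √N / β * (β / √N) := by
                field_simp
            _ ≤ _ := mul_le_mul_of_nonneg_left h2 (by positivity)
        calc |Q t s| = 1 * |Q t s| := (one_mul _).symm
          _ ≤ _ := mul_le_mul_of_nonneg_right h5 (abs_nonneg _)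
    calc ∑ t, |Q t s| ≤ ∑ t, √N / β * Q t s ^ 2 := Finset.sum_le_sum fun t _ => h1 t
      _ = √N / β * ∑ t, Q t s ^ 2 := by rw [Finset.mul_sum]
      _ ≤ √N / β * 1 := mul_le_mul_of_nonneg_left (hsum s) (by positivity)
      _ = √N / β := mul_one _
  -- pointwise bound
  have hpt : ∀ p : (Fin m → Fin k) × (Fin m → Fin N) × (Fin m → Bool),
      Nq q (cs Q i p) ^ 2 ≤ N / β ^ 2 * (∑ a, if p.2.1 a = i then (1 : ℝ) else 0) ^ 2 := by
    intro p
    have h1 := (hNRM q hq m k).2.1 (cs Q i p)
    have h2 : Nq q (cs Q i p) ≤ √N / β * ∑ a, if p.2.1 a = i then (1 : ℝ) else 0 := by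
      calc Nq q (cs Q i p) ≤ ∑ t, |cs Q i p t| := h1.2
        _ ≤ ∑ t, ∑ a, (if p.2.1 a = i then |Q t (a, p.1 a)| else 0) := by
            refine Finset.sum_le_sum fun t _ => ?_
            unfold cs
            refine (Finset.abs_sum_le_sum_abs _ _).trans (Finset.sum_le_sum fun a _ => ?_)
            split_ifs
            · rw [abs_mul]
              have h3 : |sg (p.2.2 a)| = 1 := by
                unfold sg
                split_ifs <;> simp
              rw [h3, one_mul]
            · simp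
        _ = ∑ a, (if p.2.1 a = i then (1 : ℝ) else 0) * ∑ t, |Q t (a, p.1 a)| := by
            rw [Finset.sum_comm]
            refine Finset.sum_congr rfl fun a _ => ?_
            split_ifs
            · rw [one_mul]
            · rw [zero_mul, Finset.sum_const_zero]
        _ ≤ ∑ a, (if p.2.1 a = i then (1 : ℝ) else 0) * (√N / β) := by
            refine Finset.sum_le_sum fun a _ => ?_
            exact mul_le_mul_of_nonneg_left (hcol _) (by split_ifs <;> norm_num)
        _ = _ := by rw [← Finset.sum_mul, mul_comm]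
    calc Nq q (cs Q i p) ^ 2 ≤ (√N / β * ∑ a, if p.2.1 a = i then (1 : ℝ) else 0) ^ 2 :=
          pow_le_pow_left₀ h1.1 h2 2
      _ = _ := by
          rw [mul_pow, div_pow, Real.sq_sqrt hN0.le]
  have h5 : avg (fun p => Nq q (cs Q i p) ^ 2) ≤ N / β ^ 2 * (2 * (m : ℝ) ^ 2 / (N : ℝ) ^ 2) := by
    refine (UPL_avg_mono hpt).trans ?_
    rw [MM4_avg_mul]
    refine mul_le_mul_of_nonneg_left ?_ (by positivity)
    rw [UPL_avg_prod]
    have h6 : ∀ J : Fin m → Fin k, avg (fun b : (Fin m → Fin N) × (Fin m → Bool) =>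
        (∑ a, if b.1 a = i then (1 : ℝ) else 0) ^ 2) ≤ 2 * (m : ℝ) ^ 2 / (N : ℝ) ^ 2 := by
      intro J
      rw [UPL_avg_prod]
      have h7 : ∀ χ : Fin m → Fin N, avg (fun _ : Fin m → Bool =>
          (∑ a, if χ a = i then (1 : ℝ) else 0) ^ 2) =
          (∑ a, if χ a = i then (1 : ℝ) else 0) ^ 2 := fun χ => UPL_avg_const _
      simp only [h7]
      exact UPL_card m N hN hNm i
    refine (UPL_avg_mono h6).trans ?_
    rw [UPL_avg_const]
  calc (N : ℝ) * avg (fun p => Nq q (cs Q i p) ^ 2) ≤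
      N * (N / β ^ 2 * (2 * (m : ℝ) ^ 2 / (N : ℝ) ^ 2)) :=
        mul_le_mul_of_nonneg_left h5 hN0.le
    _ = (m : ℝ) ^ 2 * (2 / β ^ 2) := by
        field_simp

end Pool.PT2
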