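import Pool.Agent.H33.PT2.UPL

/-! # Module UPS: the small part -/

set_option autoImplicit false

open Finset

namespace Pool.PT2

theorem UPS_avg_sqrt {α : Type} [Fintype α] (f : α → ℝ) (hf : ∀ a, 0 ≤ f a) :
    avg (fun a => √(f a)) ≤ √(avg f) := by
  apply Real.le_sqrt_of_sq_le
  unfold avg
  rcases Nat.eq_zero_or_pos (Fintype.card α) with h0 | h0
  · rw [h0]
    simp
  · have hc : (0 : ℝ) < Fintype.card α := by exact_mod_cast h0
    rw [div_pow, div_le_div_iff₀ (by positivity) hc]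
    have h1 := sq_sum_le_card_mul_sum_sq (s := (Finset.univ : Finset α)) (f := fun a => √(f a))
    rw [Finset.card_univ] at h1
    have h2 : ∑ a, √(f a) ^ 2 = ∑ a, f a := Finset.sum_congr rfl fun a _ => Real.sq_sqrt (hf a)
    rw [h2] at h1
    calc (∑ a, √(f a)) ^ 2 * (Fintype.card α : ℝ) ≤
        ((Fintype.card α : ℝ) * ∑ a, f a) * (Fintype.card α : ℝ) :=
          mul_le_mul_of_nonneg_right h1 hc.le
      _ = (∑ a, f a) * (Fintype.card α : ℝ) ^ 2 := by ring

theorem UPS_avg_sum {α : Type} [Fintype α] {ι : Type} (s : Finset ι) (f : ι → α → ℝ) :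
    avg (fun a => ∑ i ∈ s, f i a) = ∑ i ∈ s, avg (f i) := by
  unfold avg
  rw [Finset.sum_comm, Finset.sum_div]

theorem sUps (hNRM : SNrm) (hMM2 : SMm2) (hMM4 : SMm4) (hINT : SInt) : SUps := by
  intro q s hq hs
  obtain ⟨C, hC, hint⟩ := hINT q s hq hs
  refine ⟨C, hC, ?_⟩
  intro m k N hk hN Q i α hα hQ hsum
  have hk0 : (0 : ℝ) < k := by exact_mod_cast hk
  have hN0 : (0 : ℝ) < N := by exact_mod_cast hN
  -- moments
  have h2 : ∀ t, avg (fun p => cs Q i p t ^ 2) ≤ 1 / (N * k) := by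
    intro t
    rw [hMM2 m k N hk hN Q i t]
    exact div_le_div_of_nonneg_right (hsum t) (by positivity)
  have h4 : ∀ t, avg (fun p => cs Q i p t ^ 4) ≤ 3 / (N * k) ^ 2 + α ^ 2 / N / (N * k) :=
    fun t => hMM4 m k N hk hN Q i t (α ^ 2 / N) (hQ t) (hsum t)
  -- one row
  have hrow : ∀ a : Fin m, avg (fun p => lq q (fun j => cs Q i p (a, j)) ^ 2) ≤
      1 / N * (s + C * √(3 / k + α ^ 2)) := by
    intro a
    have h5 : avg (fun p => lq q (fun j => cs Q i p (a, j)) ^ 2) ≤
        s * ∑ j, avg (fun p => cs Q i p (a, j) ^ 2) +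
          C * √(∑ j, avg (fun p => cs Q i p (a, j) ^ 4)) := by
      refine (UPL_avg_mono fun p => hint k (fun j => cs Q i p (a, j))).trans ?_
      rw [MM4_avg_add, MM4_avg_mul, MM4_avg_mul, UPS_avg_sum]
      have h6 := UPS_avg_sqrt (fun p => ∑ j, cs Q i p (a, j) ^ 4) (fun p => by positivity)
      rw [UPS_avg_sum] at h6
      have h7 := mul_le_mul_of_nonneg_left h6 hC.le
      linarith
    have h8 : ∑ j, avg (fun p => cs Q i p (a, j) ^ 2) ≤ 1 / N := by
      refine (Finset.sum_le_sum fun j _ => h2 (a, j)).trans (le_of_eq ?_)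
      rw [Finset.sum_const, Finset.card_univ, Fintype.card_fin, nsmul_eq_mul]
      field_simp
    have h9 : ∑ j, avg (fun p => cs Q i p (a, j) ^ 4) ≤ (1 / N) ^ 2 * (3 / k + α ^ 2) := by
      refine (Finset.sum_le_sum fun j _ => h4 (a, j)).trans (le_of_eq ?_)
      rw [Finset.sum_const, Finset.card_univ, Fintype.card_fin, nsmul_eq_mul]
      field_simp
    have h10 : √(∑ j, avg (fun p => cs Q i p (a, j) ^ 4)) ≤ 1 / N * √(3 / k + α ^ 2) := by
      refine (Real.sqrt_le_sqrt h9).trans (le_of_eq ?_)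
      rw [Real.sqrt_mul (by positivity), Real.sqrt_sq (by positivity)]
    have h11 := mul_le_mul_of_nonneg_left h8 hs.le
    have h12 := mul_le_mul_of_nonneg_left h10 hC.le
    calc _ ≤ _ := h5
      _ ≤ s * (1 / N) + C * (1 / N * √(3 / k + α ^ 2)) := by linarith
      _ = _ := by ring
  -- all rows
  have hN : ∀ p, Nq q (cs Q i p) ^ 2 ≤
      m * ∑ a : Fin m, lq q (fun j => cs Q i p (a, j)) ^ 2 := by
    intro p
    have h13 := sq_sum_le_card_mul_sum_sq (s := (Finset.univ : Finset (Fin m)))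
      (f := fun a => lq q (fun j => cs Q i p (a, j)))
    rw [Finset.card_univ, Fintype.card_fin] at h13
    exact h13
  have h14 : avg (fun p => Nq q (cs Q i p) ^ 2) ≤
      m * (m * (1 / N * (s + C * √(3 / k + α ^ 2)))) := by
    refine (UPL_avg_mono hN).trans ?_
    rw [MM4_avg_mul, UPS_avg_sum]
    refine mul_le_mul_of_nonneg_left ?_ (Nat.cast_nonneg _)
    refine (Finset.sum_le_sum fun a _ => hrow a).trans (le_of_eq ?_)
    rw [Finset.sum_const, Finset.card_univ, Fintype.card_fin, nsmul_eq_mul]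
  calc (N : ℝ) * avg (fun p => Nq q (cs Q i p) ^ 2) ≤
      N * (m * (m * (1 / N * (s + C * √(3 / k + α ^ 2))))) :=
        mul_le_mul_of_nonneg_left h14 hN0.le
    _ = (m : ℝ) ^ 2 * (s + C * √(3 / k + α ^ 2)) := by
        field_simp

end Pool.PT2
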